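import Mathlib
import Pool.Agent.H482.QO.Q12
import Pool.Agent.H482.QP.Cor

/-!
# Orders of prime conductor of polynomial size with the class group of `ℚ(√q)`

For a prime `q ≡ 1 mod 4` let `K = ℚ(√q)`, with ring of integers `𝓞`.  The order `ℤ + p 𝓞` of prime
conductor `p` is called like the maximal order if its class group is that of `𝓞` (relative class number
one), if it contains a unit multiple of every element of `𝓞`, if it is half-factorial exactly when `𝓞`
is, and if it has class number one and is half-factorial when `𝓞` has class number one.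

1. At every large scale `x` there is a set `T` of at least `c x / log² x` primes `p ≤ x` such that, for
   every `r` and `ε`, with a bounded number of exceptional moduli, for any at most `r` primes
   `q ≡ 1 mod 4` with product at most `x ^ κ` the proportion of the `p ∈ T` which are inert in all the
   fields `ℚ(√q)` is `2 ^ (-r)` up to `ε`, and for nearly all of these `p` the orders of conductor `p` of
   all these fields are like the maximal orders.
2. For all but `O(log log N)` of the primes `q ≡ 1 mod 4` up to `N` there are at least `q ^ 2` primes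
   `p ≤ q ^ C` such that the order of conductor `p` of `ℚ(√q)` is like the maximal order.
-/

set_option autoImplicit false

namespace Pool.Agent.Results.MP_d0fd9b_nt.OrdersOfPolynomialConductor

open Finset NumberField

/-- The order `ℤ + f 𝓞` of conductor `f` of a quadratic field `K`. -/
def order (K : Type) [Field K] [NumberField K] (f : ℕ) : Subring (𝓞 K) where
  carrier := {x | ∃ (n : ℤ) (y : 𝓞 K), x = n + f * y}
  mul_mem' := by
    rintro _ _ ⟨n, y, rfl⟩ ⟨m, z, rfl⟩
    exact ⟨n * m, n * z + m * y + f * y * z, by push_cast; ring⟩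
  one_mem' := ⟨1, 0, by simp⟩
  add_mem' := by
    rintro _ _ ⟨n, y, rfl⟩ ⟨m, z, rfl⟩
    exact ⟨n + m, y + z, by push_cast; ring⟩
  zero_mem' := ⟨0, 0, by simp⟩
  neg_mem' := by
    rintro _ ⟨n, y, rfl⟩
    exact ⟨-n, -y, by push_cast; ring⟩

/-- Every element which is not zero and not a unit is a product of irreducible elements, and the number
of the factors is the same in all such products. -/
def HalfFactorial (R : Type) [CommRing R] : Prop :=
  (∀ a : R, a ≠ 0 → ¬ IsUnit a → ∃ s : Multiset R, (∀ b ∈ s, Irreducible b) ∧ s.prod = a) ∧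
  ∀ s t : Multiset R, (∀ b ∈ s, Irreducible b) → (∀ b ∈ t, Irreducible b) → s.prod = t.prod →
    s.card = t.card

/-- `K` is the field `ℚ(√d)` (for `d` not a square). -/
def IsQuadratic (K : Type) [Field K] [NumberField K] (d : ℕ) : Prop :=
  Module.finrank ℚ K = 2 ∧ ∃ s : K, s ^ 2 = d

/-- The prime `p` is inert in `K` and the order of conductor `p` of `K` has the class group of the maximal
order (the isomorphism being the extension of ideals) and contains a unit multiple of every integer of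
`K`; it is half-factorial exactly if the maximal order is; and if the maximal order has unique
factorisation, then the order has class number one and is half-factorial. -/
def LikeMaximal (K : Type) [Field K] [NumberField K] (p : ℕ) : Prop :=
  (Ideal.span {(p : 𝓞 K)}).IsPrime ∧
  Function.Bijective (ClassGroup.extendedHom (order K p) (𝓞 K)) ∧
  (∀ x : 𝓞 K, ∃ u : (𝓞 K)ˣ, (u : 𝓞 K) * x ∈ order K p) ∧
  (HalfFactorial (order K p) ↔ HalfFactorial (𝓞 K)) ∧
  (UniqueFactorizationMonoid (𝓞 K) →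
    Subsingleton (ClassGroup (order K p)) ∧ HalfFactorial (order K p))

/-- The primes `p ≤ x`, `p ≡ 19 mod 24`, such that `p + 1` has no odd prime factor up to `z`. -/
def T (x z : ℕ) : Finset ℕ :=
  (Icc 1 x).filter (fun p => p.Prime ∧ p % 24 = 19 ∧
    ∀ l ∈ Icc 3 z, l.Prime → ¬ l ∣ p + 1)

open Classical in
/-- The `p ∈ T x z` modulo which all `q ∈ A` are nonresidues (`p` is inert in `ℚ(√q)`). -/
noncomputable def inert (x z : ℕ) (A : Finset ℕ) : Finset ℕ :=
  (T x z).filter (fun p => ∀ q ∈ A, jacobiSym q p = -1)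

open Classical in
/-- The `p ∈ T x z` such that for all `q ∈ A` the order of conductor `p` of `ℚ(√q)` is like the maximal
order. -/
noncomputable def good (x z : ℕ) (A : Finset ℕ) : Finset ℕ :=
  (T x z).filter (fun p => ∀ q ∈ A, ∀ (K : Type) [Field K] [NumberField K], IsQuadratic K q →
    LikeMaximal K p)

open Classical in
/-- The number of the primes `p ≤ y`, `p ≡ 3 mod 8`, such that the order of conductor `p` of `ℚ(√q)` is
like the maximal order. -/
noncomputable def count (q y : ℕ) : ℕ :=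
  ((Icc 1 y).filter (fun p => p.Prime ∧ p % 8 = 3 ∧
    ∀ (K : Type) [Field K] [NumberField K], IsQuadratic K q → LikeMaximal K p)).card

theorem T_eq (x z : ℕ) : T x z = Pool.Agent.H482.QP.Tp x z := by
  ext p
  rw [Pool.Agent.H482.QP.mem_Tp]
  unfold T
  rw [mem_filter, mem_Icc]
  constructor
  · rintro ⟨h1, h2, h3, h4⟩
    refine ⟨h1, h2, h3, fun l hl => ?_⟩
    rw [Pool.Agent.Y855.mem_OP] at hl
    exact h4 l (mem_Icc.2 ⟨hl.2.1, hl.2.2⟩) hl.1
  · rintro ⟨h1, h2, h3, h4⟩
    refine ⟨h1, h2, h3, fun l hl hlp => ?_⟩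
    rw [mem_Icc] at hl
    exact h4 l (Pool.Agent.Y855.mem_OP.2 ⟨hlp, hl.1, hl.2⟩)

open Classical in
/-- **Main theorem.** -/
theorem result :
    (∃ κ k c : ℝ, 0 < κ ∧ 0 < k ∧ 0 < c ∧ ∀ (r : ℕ) (ε : ℝ), 0 < ε → ∃ N x₀ : ℕ, ∀ x : ℕ, x₀ ≤ x →
      c * (x / (Real.log x) ^ 2) ≤ ((T x ⌊(x : ℝ) ^ (1 / k)⌋₊).card : ℝ) ∧
      ∃ E : Finset ℕ, E.card ≤ N ∧ (∀ m ∈ E, 2 ≤ m) ∧
        ∀ A : Finset ℕ, A.card ≤ r → (∀ q ∈ A, q.Prime ∧ q % 4 = 1) →
        ((∏ q ∈ A, q : ℕ) : ℝ) ≤ (x : ℝ) ^ κ → (∀ B ⊆ A, ∏ q ∈ B, q ∉ E) →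
        |((inert x ⌊(x : ℝ) ^ (1 / k)⌋₊ A).card : ℝ) -
          (1 / 2) ^ A.card * ((T x ⌊(x : ℝ) ^ (1 / k)⌋₊).card : ℝ)| ≤
            ε * ((T x ⌊(x : ℝ) ^ (1 / k)⌋₊).card : ℝ) ∧
        ((1 / 2) ^ A.card - ε) * ((T x ⌊(x : ℝ) ^ (1 / k)⌋₊).card : ℝ) ≤
          ((inert x ⌊(x : ℝ) ^ (1 / k)⌋₊ A ∩ good x ⌊(x : ℝ) ^ (1 / k)⌋₊ A).card : ℝ)) ∧
    ∃ (C : ℕ) (D : ℝ), ∀ N : ℕ, 3 ≤ N →
      (((Icc 1 N).filter (fun q : ℕ => q.Prime ∧ q % 4 = 1 ∧
        (count q (q ^ C) : ℝ) < (q : ℝ) ^ 2)).card : ℝ) ≤ D * (1 + Real.log (Real.log N)) := by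
  obtain ⟨C, hC⟩ := Pool.Agent.H482.QP.exists_unit
  choose t y hty using hC
  have hlm : ∀ q p : ℕ, q.Prime → q % 4 = 1 → p.Prime → p % 4 = 3 → jacobiSym q p = -1 →
      Pool.Agent.H482.QO.Good (t q) p → ∀ (K : Type) [Field K] [NumberField K],
      IsQuadratic K q → LikeMaximal K p := by
    intro q p hq hq4 hp hp4 hj hG K _ _ hK
    obtain ⟨hK2, s, hs⟩ := hK
    obtain ⟨h1, h2, h3, h4, h5⟩ :=
      Pool.Agent.H482.QO.main hK2 p hp hp4 q (t q) (y q) s hs hj (hty q hq hq4).2.1 hG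
    exact ⟨h1, h3, h2, h4, h5⟩
  constructor
  · obtain ⟨κ, K, c, hκ, -, hK, hc, h⟩ := Pool.Agent.H482.QP.mainQ t y C hty
    refine ⟨κ, K, c, hκ, by linarith, hc, fun r ε hε => ?_⟩
    obtain ⟨N, x₀, -, h⟩ := h r (ε / 2) (by positivity)
    refine ⟨N, x₀, fun x hx => ?_⟩
    obtain ⟨h1, E, h2, h3, h4⟩ := h x hx
    have hz : ⌊(x : ℝ) ^ (1 / K)⌋₊ = Pool.Agent.H482.MR.zz K x := rfl
    rw [hz, T_eq]
    refine ⟨h1, E, h2, h3, fun A hA hAp hAx hAE => ?_⟩
    obtain ⟨h5, h6⟩ := h4 A hA hAp hAx hAE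
    obtain ⟨τ, hτ⟩ : ∃ τ : ℝ, τ = ((Pool.Agent.H482.QP.Tp x (Pool.Agent.H482.MR.zz K x)).card : ℝ) :=
      ⟨_, rfl⟩
    rw [← hτ] at h5 h6 ⊢
    have hτ0 : 0 ≤ τ := by rw [hτ]; positivity
    have hετ : 0 ≤ ε * τ := by positivity
    constructor
    · unfold inert
      rw [T_eq]
      refine h5.trans ?_
      linarith
    · have h7 : Pool.Agent.H482.QP.GdP x (Pool.Agent.H482.MR.zz K x) t A ⊆
          inert x (Pool.Agent.H482.MR.zz K x) A ∩ good x (Pool.Agent.H482.MR.zz K x) A := by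
        intro p hp
        unfold Pool.Agent.H482.QP.GdP at hp
        rw [mem_filter] at hp
        obtain ⟨hp1, hp2⟩ := hp
        have hp3 := Pool.Agent.H482.QP.mem_Tp.1 hp1
        rw [mem_inter]
        unfold inert good
        rw [mem_filter, mem_filter, T_eq]
        refine ⟨⟨hp1, fun q hq => (hp2 q hq).1⟩, hp1, fun q hq => ?_⟩
        exact hlm q p (hAp q hq).1 (hAp q hq).2 hp3.2.1 (by omega) (hp2 q hq).1 (hp2 q hq).2
      have h8 : ((Pool.Agent.H482.QP.GdP x (Pool.Agent.H482.MR.zz K x) t A).card : ℝ) ≤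
          ((inert x (Pool.Agent.H482.MR.zz K x) A ∩
            good x (Pool.Agent.H482.MR.zz K x) A).card : ℝ) := by
        exact_mod_cast card_le_card h7
      refine le_trans (le_of_eq ?_) (h6.trans h8)
      ring
  · obtain ⟨C₀, D, hD⟩ := Pool.Agent.H482.QP.main_scaleQ t y C hty
    refine ⟨C₀, D, fun N hN => le_trans ?_ (hD N hN)⟩
    rw [Nat.cast_le]
    apply card_le_card
    intro q hq
    rw [mem_filter] at hq ⊢
    obtain ⟨hq1, hq2, hq3, hq4⟩ := hq
    refine ⟨hq1, hq2, hq3, lt_of_le_of_lt ?_ hq4⟩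
    rw [Nat.cast_le]
    unfold Pool.Agent.H482.QP.Gn count
    apply card_le_card
    intro p hp
    rw [mem_filter] at hp ⊢
    obtain ⟨hp1, hp2, hp3, hp4, hp5⟩ := hp
    exact ⟨hp1, hp2, hp3, hlm q p hq2 hq3 hp2 (by omega) hp4 hp5⟩

end Pool.Agent.Results.MP_d0fd9b_nt.OrdersOfPolynomialConductor
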