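import Pool.Agent.H563.TW.ClsThin

/-!
# The class groups of almost all real quadratic fields are generated by the small primes of one very thin set

Let `a > 2`.  There are a constant `C` and ONE fixed set `B` of prime numbers with at most `C y ^ (2 / a)` elements up
to `y`, for all `y ≥ 1`, such that for 100% of the squarefree integers `d` and for 100% of the primes `d = p` the
class group of the real quadratic field of the square root of `d` is generated by the classes of the prime ideals
whose norm is in `B` and at most `(log d) ^ a`.  As `a` may be large, `B` can be as thin as any power of `y`; there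
are at most `C (log d) ^ 2` elements of `B` up to `(log d) ^ a`.

Consequently, for every `n`, for 100% of the primes `p` the class number `h(p)` is coprime to `n` if and only if the
classes of these few prime ideals are `n`-th powers in the class group (`n = 0`: `h(p) = 1` if and only if these prime
ideals are principal); the proportion of the primes with class number one and the proportion of the primes passing
this test differ by a quantity that tends to zero, and the conjecture `R(x) → C` of Cohen and Lenstra is equivalent to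
the same statement for the test.

Input: for almost all discriminants the ideals whose norm is a product of `k` distinct primes of `(y, 2y]` are
equidistributed in the class group (library, `Pool.Agent.H38R2`).  From this: every proper subgroup of the class group
misses the prime ideals above at least the proportion `1 / (16 k)` of the primes of `(y, 2y]`, and the class number is
at most `X ^ 3`.  Then `B` is chosen block by block, one prime after the other, such that the sum over all fields
of the block of the index of the subgroup generated so far decreases by a factor `1 - 1 / (c log X)` in each step.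
-/

set_option autoImplicit false

namespace Pool.Agent.Results.MP_d0fd9b_nt.ThinGeneratingSet

open Filter Finset NumberField
open scoped Classical

/-- The classes of the nonzero prime ideals of `K` whose norm is in `B` and at most `T`. -/
def SmallClasses (B : Set ℕ) (K : Type) [Field K] [NumberField K] (T : ℝ) : Set (ClassGroup (𝓞 K)) :=
  {c | ∃ P : nonZeroDivisors (Ideal (𝓞 K)), (P : Ideal (𝓞 K)).IsPrime ∧
    Ideal.absNorm (P : Ideal (𝓞 K)) ∈ B ∧ (Ideal.absNorm (P : Ideal (𝓞 K)) : ℝ) ≤ T ∧ ClassGroup.mk0 P = c}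

/-- In every quadratic number field containing a square root of `d`, the class group is generated by the classes of
the prime ideals whose norm is in `B` and at most `(log d) ^ a`. -/
def Generated (B : Set ℕ) (a : ℝ) (d : ℕ) : Prop :=
  ∀ (K : Type) [Field K] [NumberField K], Module.finrank ℚ K = 2 → (∃ x : K, x ^ 2 = (d : K)) →
    Subgroup.closure (SmallClasses B K ((Real.log d) ^ a)) = ⊤

/-- `p` is a prime, and the field of the square root of `p` has class number one. -/
def ClassNumberOne (p : ℕ) : Prop :=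
  p.Prime ∧ ∀ (K : Type) [Field K] [NumberField K], Module.finrank ℚ K = 2 → (∃ x : K, x ^ 2 = (p : K)) →
    classNumber K = 1

/-- `p` is a prime, and in the field of the square root of `p` all prime ideals whose norm is in `B` and at most
`(log p) ^ a` are principal. -/
def PrincipalTest (B : Set ℕ) (a : ℝ) (p : ℕ) : Prop :=
  p.Prime ∧ ∀ (K : Type) [Field K] [NumberField K], Module.finrank ℚ K = 2 → (∃ x : K, x ^ 2 = (p : K)) →
    ∀ P : Ideal (𝓞 K), P.IsPrime → Ideal.absNorm P ∈ B → (Ideal.absNorm P : ℝ) ≤ (Real.log p) ^ a → P.IsPrincipal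

/-- `p` is a prime, and the class number of the field of the square root of `p` is coprime to `n`. -/
def CoprimeTo (n : ℕ) (p : ℕ) : Prop :=
  p.Prime ∧ ∀ (K : Type) [Field K] [NumberField K], Module.finrank ℚ K = 2 → (∃ x : K, x ^ 2 = (p : K)) →
    (classNumber K).Coprime n

/-- `p` is a prime, and in the field of the square root of `p` the classes of all prime ideals whose norm is in `B`
and at most `(log p) ^ a` are `n`-th powers in the class group. -/
def PowerTest (B : Set ℕ) (a : ℝ) (n : ℕ) (p : ℕ) : Prop :=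
  p.Prime ∧ ∀ (K : Type) [Field K] [NumberField K], Module.finrank ℚ K = 2 → (∃ x : K, x ^ 2 = (p : K)) →
    ∀ c ∈ SmallClasses B K ((Real.log p) ^ a), ∃ b : ClassGroup (𝓞 K), b ^ n = c

/-- The proportion of the primes up to `x` that have the property `F`. -/
noncomputable def proportion (F : ℕ → Prop) (x : ℕ) : ℝ :=
  (((Finset.Icc 1 x).filter F).card : ℝ) / (((Finset.Icc 1 x).filter Nat.Prime).card : ℝ)

/-- For 100% of the primes `p` the property `G` holds. -/
def AlmostAllPrimes (G : ℕ → Prop) : Prop :=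
  Tendsto (proportion (fun p => p.Prime ∧ ¬ G p)) atTop (nhds 0)

/-- For 100% of the squarefree integers `d` the property `G` holds. -/
def AlmostAllSquarefree (G : ℕ → Prop) : Prop :=
  Tendsto (fun x : ℕ => (((Finset.Icc 2 x).filter (fun d => Squarefree d ∧ ¬ G d)).card : ℝ) /
    (((Finset.Icc 2 x).filter Squarefree).card : ℝ)) atTop (nhds 0)

/-! ## Groups -/

theorem coprime_iff {G : Type} [CommGroup G] [Fintype G] (n : ℕ) (T : Set G) (hT : Subgroup.closure T = ⊤) :
    (Fintype.card G).Coprime n ↔ ∀ c ∈ T, ∃ b : G, b ^ n = c := by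
  constructor
  · intro h c _
    have h' : (Nat.card G).Coprime n := by
      rw [Nat.card_eq_fintype_card]
      exact h
    exact ⟨(powCoprime h').symm c, by
      have := (powCoprime h').apply_symm_apply c
      simpa using this⟩
  · intro h
    have hsurj : Function.Surjective (powMonoidHom n : G →* G) := by
      rw [← MonoidHom.range_eq_top, eq_top_iff, ← hT, Subgroup.closure_le]
      intro c hc
      obtain ⟨b, hb⟩ := h c hc
      exact ⟨b, hb⟩
    have hinj : Function.Injective (powMonoidHom n : G →* G) := Finite.injective_iff_surjective.2 hsurj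
    by_contra hcop
    obtain ⟨q, hq, hq1, hq2⟩ := Nat.Prime.not_coprime_iff_dvd.1 hcop
    have : Fact q.Prime := ⟨hq⟩
    obtain ⟨x, hx⟩ := exists_prime_orderOf_dvd_card q hq1
    have h1 : x ^ n = 1 := by
      rw [← orderOf_dvd_iff_pow_eq_one, hx]
      exact hq2
    have h2 : (powMonoidHom n : G →* G) x = (powMonoidHom n : G →* G) 1 := by
      rw [powMonoidHom_apply, powMonoidHom_apply, h1, one_pow]
    have h3 := hinj h2
    rw [h3, orderOf_one] at hx
    exact hq.one_lt.ne hx

/-! ## Counting -/

theorem card_le' (s : Finset ℕ) (F F' : ℕ → Prop) {_ : DecidablePred F} {_ : DecidablePred F'}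
    (h : ∀ p ∈ s, F p → F' p) : ((s.filter F).card : ℝ) ≤ ((s.filter F').card : ℝ) := by
  have : (s.filter F).card ≤ (s.filter F').card := by
    apply card_le_card
    intro p hp
    rw [mem_filter] at hp ⊢
    exact ⟨hp.1, h p hp.1 hp.2⟩
  exact_mod_cast this

theorem card_le2 (s : Finset ℕ) (F G H : ℕ → Prop) [DecidablePred F] [DecidablePred G] [DecidablePred H]
    (h : ∀ p ∈ s, F p → G p ∨ H p) :
    ((s.filter F).card : ℝ) ≤ ((s.filter G).card : ℝ) + ((s.filter H).card : ℝ) := by
  have : (s.filter F).card ≤ (s.filter G).card + (s.filter H).card := by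
    refine (card_le_card ?_).trans (card_union_le _ _)
    intro p hp
    rw [mem_union, mem_filter, mem_filter]
    rw [mem_filter] at hp
    rcases h p hp.1 hp.2 with h1 | h1
    · exact Or.inl ⟨hp.1, h1⟩
    · exact Or.inr ⟨hp.1, h1⟩
  exact_mod_cast this

theorem icc_eq (X : ℕ) (f : ℕ → Prop) (i1 i2 : DecidablePred f) (hf : ∀ d, f d → 2 ≤ d) :
    ((@Finset.filter ℕ f i1 (Finset.Icc 1 X)).card : ℝ) = ((@Finset.filter ℕ f i2 (Finset.Icc 2 X)).card : ℝ) := by
  congr 2
  ext d
  rw [@Finset.mem_filter _ _ i1, @Finset.mem_filter _ _ i2, mem_Icc, mem_Icc]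
  constructor
  · rintro ⟨⟨h1, h2⟩, h3⟩
    exact ⟨⟨hf d h3, h2⟩, h3⟩
  · rintro ⟨⟨h1, h2⟩, h3⟩
    exact ⟨⟨by omega, h2⟩, h3⟩

theorem aap_mono {G G' : ℕ → Prop} (h : ∀ p, p.Prime → G p → G' p) (hG : AlmostAllPrimes G) :
    AlmostAllPrimes G' := by
  refine squeeze_zero (fun x => ?_) (fun x => ?_) hG
  · unfold proportion
    positivity
  · unfold proportion
    apply div_le_div_of_nonneg_right _ (Nat.cast_nonneg _)
    exact card_le' _ _ _ (fun p _ hp => ⟨hp.1, fun hg => hp.2 (h p hp.1 hg)⟩)

theorem prop_diff {F F' : ℕ → Prop} (hF : ∀ p, F p → p.Prime) (hF' : ∀ p, F' p → p.Prime)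
    (h : AlmostAllPrimes (fun p => F p ↔ F' p)) :
    Tendsto (fun x => proportion F x - proportion F' x) atTop (nhds 0) := by
  obtain ⟨N, hN⟩ : ∃ N : ℕ → Prop, N = fun p => p.Prime ∧ ¬ (F p ↔ F' p) := ⟨_, rfl⟩
  have h' : Tendsto (proportion N) atTop (nhds 0) := by
    rw [hN]
    exact h
  refine squeeze_zero_norm (fun x => ?_) h'
  rw [Real.norm_eq_abs]
  unfold proportion
  rw [← sub_div, abs_div, abs_of_nonneg (Nat.cast_nonneg (α := ℝ) ((Finset.Icc 1 x).filter Nat.Prime).card)]
  apply div_le_div_of_nonneg_right _ (Nat.cast_nonneg _)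
  have h1 := card_le2 (Finset.Icc 1 x) F F' N (fun p _ hp => by
    by_cases hp' : F' p
    · exact Or.inl hp'
    · refine Or.inr ?_
      rw [hN]
      exact ⟨hF p hp, fun hi => hp' (hi.1 hp)⟩)
  have h2 := card_le2 (Finset.Icc 1 x) F' F N (fun p _ hp => by
    by_cases hp' : F p
    · exact Or.inl hp'
    · refine Or.inr ?_
      rw [hN]
      exact ⟨hF' p hp, fun hi => hp' (hi.2 hp)⟩)
  rw [abs_le]
  constructor <;> linarith

theorem lim_iff {f g : ℕ → ℝ} (h : Tendsto (fun x => f x - g x) atTop (nhds 0)) (c : ℝ) :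
    Tendsto f atTop (nhds c) ↔ Tendsto g atTop (nhds c) := by
  constructor
  · intro hf
    have := hf.sub h
    simpa using this
  · intro hg
    have := hg.add h
    simpa using this

/-- positive density of the squarefree numbers -/
theorem squarefree_low : ∃ X₀ : ℕ, ∀ X : ℕ, X₀ ≤ X → (X : ℝ) / 8 ≤ (((Finset.Icc 2 X).filter Squarefree).card : ℝ) := by
  have hsum : ∀ n : ℕ, 2 ≤ n → ∑ m ∈ Finset.Icc 2 n, (1 : ℝ) / ((m : ℝ) * m) ≤ 3 / 4 - 1 / n := by
    intro n hn
    induction n, hn using Nat.le_induction with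
    | base => norm_num
    | succ n hn ih =>
      rw [Finset.sum_Icc_succ_top (by omega)]
      have hn0 : (0 : ℝ) < n := by
        have : 0 < n := by omega
        exact_mod_cast this
      have h1 : (1 : ℝ) / (((n + 1 : ℕ) : ℝ) * ((n + 1 : ℕ) : ℝ)) ≤ 1 / n - 1 / ((n + 1 : ℕ) : ℝ) := by
        push_cast
        rw [div_sub_div _ _ (by positivity) (by positivity), div_le_div_iff₀ (by positivity) (by positivity)]
        nlinarith
      linarith
  refine ⟨8, fun X hX => ?_⟩
  have hX8 : (8 : ℝ) ≤ X := by exact_mod_cast hX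
  have h1 : ((Finset.Ioc 0 X).filter (fun n => ¬ Squarefree n)).card ≤
      ∑ m ∈ Finset.Icc 2 X, X / (m * m) := by
    refine (card_le_card (t := (Finset.Icc 2 X).biUnion (fun m => (Finset.Ioc 0 X).filter (fun n => m * m ∣ n)))
      ?_).trans (card_biUnion_le.trans ?_)
    · intro n hn
      rw [mem_filter, mem_Ioc] at hn
      rw [mem_biUnion]
      obtain ⟨⟨hn0, hnX⟩, hn⟩ := hn
      unfold Squarefree at hn
      push Not at hn
      obtain ⟨m, hm, hm1⟩ := hn
      have hm0 : m ≠ 0 := by
        rintro rfl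
        rw [zero_mul, zero_dvd_iff] at hm
        omega
      rw [Nat.isUnit_iff] at hm1
      have hmn := Nat.le_of_dvd hn0 hm
      refine ⟨m, ?_, ?_⟩
      · rw [mem_Icc]
        refine ⟨by omega, ?_⟩
        nlinarith [Nat.pos_of_ne_zero hm0]
      · rw [mem_filter, mem_Ioc]
        exact ⟨⟨hn0, hnX⟩, hm⟩
    · apply le_of_eq
      apply Finset.sum_congr rfl
      intro m _
      exact Nat.Ioc_filter_dvd_card_eq_div X (m * m)
  have h2 : (((Finset.Ioc 0 X).filter (fun n => ¬ Squarefree n)).card : ℝ) ≤ 3 / 4 * X := by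
    calc (((Finset.Ioc 0 X).filter (fun n => ¬ Squarefree n)).card : ℝ) ≤
          ((∑ m ∈ Finset.Icc 2 X, X / (m * m) : ℕ) : ℝ) := by exact_mod_cast h1
      _ = ∑ m ∈ Finset.Icc 2 X, ((X / (m * m) : ℕ) : ℝ) := by push_cast; rfl
      _ ≤ ∑ m ∈ Finset.Icc 2 X, (X : ℝ) * (1 / ((m : ℝ) * m)) := by
          apply Finset.sum_le_sum
          intro m _
          refine Nat.cast_div_le.trans ?_
          push_cast
          rw [mul_one_div]
      _ = X * ∑ m ∈ Finset.Icc 2 X, 1 / ((m : ℝ) * m) := by rw [Finset.mul_sum]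
      _ ≤ X * (3 / 4 - 1 / X) := by
          apply mul_le_mul_of_nonneg_left (hsum X (by omega)) (by positivity)
      _ ≤ 3 / 4 * X := by
          have : (X : ℝ) * (1 / X) = 1 := by
            field_simp
          nlinarith
  have h3 := card_filter_add_card_filter_not (s := Finset.Ioc 0 X) Squarefree
  rw [Nat.card_Ioc] at h3
  have h4 : ((Finset.Ioc 0 X).filter Squarefree).card ≤ ((Finset.Icc 2 X).filter Squarefree).card + 1 := by
    have : (Finset.Ioc 0 X).filter Squarefree ⊆ insert 1 ((Finset.Icc 2 X).filter Squarefree) := by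
      intro n hn
      rw [mem_filter, mem_Ioc] at hn
      rw [mem_insert, mem_filter, mem_Icc]
      by_cases h : n = 1
      · exact Or.inl h
      · exact Or.inr ⟨⟨by omega, hn.1.2⟩, hn.2⟩
    exact (card_le_card this).trans (card_insert_le _ _)
  have h3' : (((Finset.Ioc 0 X).filter Squarefree).card : ℝ) +
      (((Finset.Ioc 0 X).filter (fun n => ¬ Squarefree n)).card : ℝ) = X := by
    have : ((Finset.Ioc 0 X).filter Squarefree).card +
      ((Finset.Ioc 0 X).filter (fun n => ¬ Squarefree n)).card = X := by omega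
    exact_mod_cast this
  have h4' : (((Finset.Ioc 0 X).filter Squarefree).card : ℝ) ≤ (((Finset.Icc 2 X).filter Squarefree).card : ℝ) + 1 := by
    exact_mod_cast h4
  linarith

theorem generated_of (B : Set ℕ) (a : ℝ) (d : ℕ) (h : Pool.Agent.H563.TW.GenB a B d) : Generated B a d := by
  intro K _ _ h2 hx
  rw [eq_top_iff, ← h K h2 hx]
  apply Subgroup.closure_mono
  rintro c ⟨u, ⟨hu, hua⟩, P, hP, hPu, rfl⟩
  exact ⟨P, hP, by rw [hPu]; exact hu, by rw [hPu]; exact hua, rfl⟩

open Pool.Agent.H38R2.CG Pool.Agent.H38R2.CG2 Pool.Agent.H38R2.CG.AS1h Pool.Agent.H38R2.CG.FINh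
open Pool.Agent.H38R2.CG3 Pool.Agent.H563.TW in
theorem almost (a : ℝ) (ha : 2 < a) (B : Set ℕ)
    (h : ∃ X₀ : ℕ, ∀ X : ℕ, X₀ ≤ X → ∀ d : ℕ, 1 < d → Squarefree d → X < Dof d → Dof d ≤ 2 * X →
      ¬ BX a X (Dof d) → GenB a B d) :
    AlmostAllSquarefree (Generated B a) ∧ AlmostAllPrimes (Generated B a) := by
  obtain ⟨-, ht, hNB, hML, hAS, hBH, hRC⟩ := inputs
  obtain ⟨X₁, hX₁⟩ := h
  constructor
  · have key := fin_all (fun d => ¬ GenB a B d) (by
      intro δ hδ
      obtain ⟨η, hη, hη1, X0, hX0⟩ := short_allX ht (px_as0 hAS hML) a ha δ hδ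
      refine ⟨η, hη, hη1, max X0 X₁, fun X hX => ?_⟩
      refine le_trans ?_ (hX0 X (le_trans (le_max_left _ _) hX))
      have hsub : ((Finset.Ioc X ⌊(1 + η) * (X : ℝ)⌋₊).filter
            (fun D => ∃ d : ℕ, 1 < d ∧ Squarefree d ∧ ¬ GenB a B d ∧ D = Dof d)) ⊆
          (Finset.Ioc X ⌊(1 + η) * (X : ℝ)⌋₊).filter (fun D => IsFund D ∧ BX a X D) := by
        intro D hD
        rw [Finset.mem_filter] at hD ⊢
        obtain ⟨hD1, d, hd1, hds, hg, rfl⟩ := hD
        refine ⟨hD1, isFund_Dof hd1 hds, ?_⟩
        by_contra hB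
        apply hg
        refine hX₁ X (le_trans (le_max_right _ _) hX) d hd1 hds (Finset.mem_Ioc.1 hD1).1 ?_ hB
        have h1 := (Finset.mem_Ioc.1 hD1).2
        have h2 : ((⌊(1 + η) * (X : ℝ)⌋₊ : ℕ) : ℝ) ≤ (1 + η) * (X : ℝ) :=
          Nat.floor_le (by positivity)
        have h3 : (Dof d : ℝ) ≤ (⌊(1 + η) * (X : ℝ)⌋₊ : ℝ) := by exact_mod_cast h1
        have h5 : (Dof d : ℝ) ≤ 2 * (X : ℝ) := by
          have : (0 : ℝ) ≤ X := by positivity
          nlinarith
        exact_mod_cast h5
      exact_mod_cast Finset.card_le_card hsub)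
    obtain ⟨X₂, hX₂⟩ := squarefree_low
    have key8 := key.const_mul 8
    rw [mul_zero] at key8
    refine squeeze_zero' (Eventually.of_forall fun x => by positivity) ?_ key8
    filter_upwards [eventually_ge_atTop (max X₂ 1)] with x hx
    have hx1 : (1 : ℝ) ≤ x := by
      have : 1 ≤ x := (le_max_right _ _).trans hx
      exact_mod_cast this
    have h1 := hX₂ x ((le_max_left _ _).trans hx)
    have e : ∀ t : ℝ, 8 * (t / x) = t / ((x : ℝ) / 8) := by
      intro t
      field_simp
    rw [e]
    exact div_le_div₀ (by positivity) (card_le' _ _ _ (fun d _ hd => ⟨hd.1, fun hg => hd.2 (generated_of B a d hg)⟩))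
      (by positivity) h1
  · have key := fin_primes hNB (fun d => ¬ GenB a B d) (by
      intro δ hδ
      obtain ⟨η, hη, hη1, X0, hX0⟩ := short_primesX (px_as0 hAS hML) hBH hRC a ha δ hδ
      refine ⟨η, hη, hη1, max X0 X₁, fun X hX => ?_⟩
      refine le_trans ?_ (hX0 X (le_trans (le_max_left _ _) hX))
      have hsub : ((Finset.Ioc X ⌊(1 + η) * (X : ℝ)⌋₊).filter
            (fun D => ∃ p : ℕ, p.Prime ∧ ¬ GenB a B p ∧ D = Dof p)) ⊆
          (Finset.Ioc X ⌊(1 + η) * (X : ℝ)⌋₊).filter
            (fun D => (∃ p : ℕ, p.Prime ∧ (D = p ∨ D = 4 * p)) ∧ IsFund D ∧ BX a X D) := by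
        intro D hD
        rw [Finset.mem_filter] at hD ⊢
        obtain ⟨hD1, p, hp, hg, rfl⟩ := hD
        refine ⟨hD1, ⟨p, hp, ?_⟩, isFund_Dof hp.one_lt hp.squarefree, ?_⟩
        · unfold Dof
          split_ifs <;> simp
        by_contra hB
        apply hg
        refine hX₁ X (le_trans (le_max_right _ _) hX) p hp.one_lt hp.squarefree
          (Finset.mem_Ioc.1 hD1).1 ?_ hB
        have h1 := (Finset.mem_Ioc.1 hD1).2
        have h2 : ((⌊(1 + η) * (X : ℝ)⌋₊ : ℕ) : ℝ) ≤ (1 + η) * (X : ℝ) :=
          Nat.floor_le (by positivity)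
        have h3 : (Dof p : ℝ) ≤ (⌊(1 + η) * (X : ℝ)⌋₊ : ℝ) := by exact_mod_cast h1
        have h5 : (Dof p : ℝ) ≤ 2 * (X : ℝ) := by
          have : (0 : ℝ) ≤ X := by positivity
          nlinarith
        exact_mod_cast h5
      exact_mod_cast Finset.card_le_card hsub)
    refine aap_mono (G := GenB a B) (fun p _ => generated_of B a p) ?_
    refine squeeze_zero (fun x => ?_) (fun x => ?_) key
    · unfold proportion
      positivity
    · unfold proportion
      exact le_of_eq (congrArg₂ (· / ·) (icc_eq x _ _ _ (fun p hp => hp.1.two_le))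
        (icc_eq x _ _ _ (fun p hp => Nat.Prime.two_le hp)))

/-- For every `a > 2` there is a thin set `B` of primes with the properties described above. -/
theorem result (a : ℝ) (ha : 2 < a) : ∃ (C : ℝ) (B : Set ℕ), (∀ b ∈ B, b.Prime) ∧
    (∀ y : ℕ, 1 ≤ y → ({b | b ∈ B ∧ b ≤ y}.ncard : ℝ) ≤ C * (y : ℝ) ^ (2 / a)) ∧
    AlmostAllSquarefree (Generated B a) ∧ AlmostAllPrimes (Generated B a) ∧
    (AlmostAllPrimes (fun p => ClassNumberOne p ↔ PrincipalTest B a p) ∧
      Tendsto (fun x => proportion ClassNumberOne x - proportion (PrincipalTest B a) x) atTop (nhds 0) ∧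
      ∀ c : ℝ, Tendsto (proportion ClassNumberOne) atTop (nhds c) ↔
        Tendsto (proportion (PrincipalTest B a)) atTop (nhds c)) ∧
    ∀ n : ℕ, AlmostAllPrimes (fun p => CoprimeTo n p ↔ PowerTest B a n p) ∧
      Tendsto (fun x => proportion (CoprimeTo n) x - proportion (PowerTest B a n) x) atTop (nhds 0) ∧
      ∀ c : ℝ, Tendsto (proportion (CoprimeTo n)) atTop (nhds c) ↔
        Tendsto (proportion (PowerTest B a n)) atTop (nhds c) := by
  obtain ⟨C, -, B, hB1, hB2, hB3⟩ := Pool.Agent.H563.TW.thinCls a ha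
  obtain ⟨h1, h2⟩ := almost a ha B hB3
  have h3 : AlmostAllPrimes (fun p => ClassNumberOne p ↔ PrincipalTest B a p) := by
    refine aap_mono (fun p hp hg => ?_) h2
    constructor
    · rintro ⟨-, h⟩
      refine ⟨hp, fun K _ _ hK hx P _ _ _ => ?_⟩
      have : IsPrincipalIdealRing (𝓞 K) := classNumber_eq_one_iff.1 (h K hK hx)
      exact IsPrincipalIdealRing.principal P
    · rintro ⟨-, h⟩
      refine ⟨hp, fun K _ _ hK hx => ?_⟩
      have hg' := hg K hK hx
      have h4 : Subgroup.closure (SmallClasses B K ((Real.log p) ^ a)) ≤ ⊥ := by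
        rw [Subgroup.closure_le]
        rintro c ⟨P, hP1, hP2, hP3, rfl⟩
        rw [SetLike.mem_coe, Subgroup.mem_bot, ClassGroup.mk0_eq_one_iff]
        exact h K hK hx P hP1 hP2 hP3
      rw [hg'] at h4
      unfold classNumber
      rw [Fintype.card_eq_one_iff]
      refine ⟨1, fun c => ?_⟩
      have := h4 (Subgroup.mem_top c)
      rwa [Subgroup.mem_bot] at this
  have h4 : ∀ n : ℕ, AlmostAllPrimes (fun p => CoprimeTo n p ↔ PowerTest B a n p) := by
    intro n
    refine aap_mono (fun p hp hg => ?_) h2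
    constructor
    · rintro ⟨-, h⟩
      refine ⟨hp, fun K _ _ hK hx => ?_⟩
      exact (coprime_iff n _ (hg K hK hx)).1 (h K hK hx)
    · rintro ⟨-, h⟩
      refine ⟨hp, fun K _ _ hK hx => ?_⟩
      exact (coprime_iff n _ (hg K hK hx)).2 (h K hK hx)
  have h5 := prop_diff (fun p (hp : ClassNumberOne p) => hp.1) (fun p (hp : PrincipalTest B a p) => hp.1) h3
  refine ⟨C, B, hB1, hB2, h1, h2, ⟨h3, h5, lim_iff h5⟩, fun n => ?_⟩
  have h6 := prop_diff (fun p (hp : CoprimeTo n p) => hp.1) (fun p (hp : PowerTest B a n p) => hp.1) (h4 n)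
  exact ⟨h4 n, h6, lim_iff h6⟩

end Pool.Agent.Results.MP_d0fd9b_nt.ThinGeneratingSet
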